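import Pool.Agent.H.MP_8ae111_al.A

set_option autoImplicit false
open Pool.Agent.H.MP_8ae111_al

namespace Pool.Agent.Results.MP_8ae111_al.JordanCharTwo

theorem result : ∃ (A : Type) (_ : NonUnitalNonAssocCommRing A) (G : Subgroup (A ≃+* A)),
    (∀ x y : A, x * x * y * x = x * x * (y * x)) ∧ Finite G ∧ (∀ a : A, Nat.card G • a = 0 → a = 0) ∧
    (∀ a b : A, (∀ g ∈ G, g a = a) → (∀ g ∈ G, g b = b) → a * b = 0) ∧
    ∀ n : ℕ, (fun S : Set A => (AddSubgroup.closure (Set.image2 (· * ·) S S) : Set A))^[n] Set.univ ≠ {0} := by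
  let φ : R ≃+* R := ⟨⟨fun a => (a.2.1, a.2.2, a.1), fun a => (a.2.2, a.1, a.2.1), fun _ => rfl, fun _ => rfl⟩,
    by decide, fun _ _ => rfl⟩
  have h : orderOf φ = 3 := orderOf_eq_prime rfl fun e => absurd (DFunLike.congr_fun e (mk 1 0 0)) (by decide)
  refine ⟨R, inferInstance, Subgroup.zpowers φ, by decide, Nat.finite_of_card_ne_zero (by simp [h]),
    by rw [Nat.card_zpowers, h]; decide, fun a b ha hb => ?_, fun n e => ?_⟩
  · exact (by decide : ∀ a b : R, φ a = a → φ b = b → a * b = 0) a b (ha φ (Subgroup.mem_zpowers φ))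
      (hb φ (Subgroup.mem_zpowers φ))
  · rw [Function.iterate_fixed] at e
    · exact absurd (Set.mem_singleton_iff.mp (e ▸ Set.mem_univ (mk 1 0 0))) (by decide)
    · refine Set.eq_univ_of_forall fun x => ?_
      obtain ⟨a, b, rfl⟩ := (by decide : ∀ x : R, ∃ a b, x = a * b) x
      exact AddSubgroup.subset_closure ⟨a, trivial, b, trivial, rfl⟩

end Pool.Agent.Results.MP_8ae111_al.JordanCharTwo
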